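import Pool.Agent.H78.KP.Stmts
import Pool.Agent.H59.KG.TRP

/-!
# Project KP, module EVJ: the evolution of the Dirichlet form with the covariance matrix
-/

set_option autoImplicit false

open MeasureTheory Set Filter Topology
open scoped ContDiff

namespace Pool.Agent.H59.KP

open Pool.Agent.H84 Pool.Agent.H84.Sym Pool.Agent.H84.Sym.P2x Pool.Agent.H19.KL
open Pool.Agent.H73.KG Pool.Agent.H20.KH Pool.Agent.H78.KP Pool.Agent.H59.KG

variable {E : Type} [NormedAddCommGroup E] [InnerProductSpace ℝ E]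
    [FiniteDimensional ℝ E] [MeasurableSpace E] [BorelSpace E]

/-- partial derivatives of regular functions in the parameter -/
theorem evj_D (h1 : RGCStmt E) {G : ℝ → E → ℝ} (hG : RG G) {s : ℝ} (hs : 0 < s) (e : E) :
    GC (fun θ => D e (G s) θ) := by
  obtain ⟨hGs, hsm, hgr, hDD⟩ := h1.2.2.2.2.2.1 G hG s hs
  constructor
  · unfold D
    have hc : Continuous (fderiv ℝ (G s)) := hsm.continuous_fderiv (by norm_num)
    exact hc.clm_apply continuous_const
  · refine Gr.of_le (Gr.mul hgr (Gr.of_bdd (A := |‖e‖|) (F := fun _ : E => ‖e‖) fun _ => le_rfl))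
      fun θ => ?_
    rw [abs_mul, abs_norm, abs_norm, ← Real.norm_eq_abs]
    exact ContinuousLinearMap.le_opNorm _ _

omit [InnerProductSpace ℝ E] [FiniteDimensional ℝ E] [MeasurableSpace E] [BorelSpace E] in
/-- a continuous function of compact support is of class `GC` -/
theorem evj_cs {f : E → ℝ} (hf : Continuous f) (hc : HasCompactSupport f) : GC f := by
  refine ⟨hf, ?_⟩
  obtain ⟨C, hC⟩ := hc.exists_bound_of_continuous hf
  exact Gr.of_bdd (A := C) fun x => by simpa [Real.norm_eq_abs] using hC x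

omit [FiniteDimensional ℝ E] [MeasurableSpace E] [BorelSpace E] in
theorem evj_Dc {u : E → ℝ} (hu : Tst u) (e : E) :
    Continuous (D e u) ∧ HasCompactSupport (D e u) := by
  constructor
  · unfold D
    have hc : Continuous (fderiv ℝ u) := hu.1.continuous_fderiv (by simp)
    exact hc.clm_apply continuous_const
  · exact hu.2.fderiv_apply (𝕜 := ℝ) e

omit [FiniteDimensional ℝ E] [MeasurableSpace E] [BorelSpace E] in
theorem evj_DD {u : E → ℝ} (hu : Tst u) (e e' : E) : GC (fun x => D e u x * D e' u x) :=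
  evj_cs ((evj_Dc hu e).1.mul (evj_Dc hu e').1) ((evj_Dc hu e).2.mul_right)

/-- sum of finitely many regular functions -/
theorem evj_sum (h1 : RGCStmt E) {κ : Type} (S : Finset κ) {F : κ → ℝ → E → ℝ}
    (h : ∀ k, RG (F k)) : RG (fun s θ => ∑ k ∈ S, F k s θ) := by
  classical
  induction S using Finset.induction_on with
  | empty => simpa using h1.1 0
  | insert a S ha ih =>
    have e : (fun s θ => ∑ k ∈ insert a S, F k s θ) = fun s θ => F a s θ + ∑ k ∈ S, F k s θ := by
      funext s θ
      rw [Finset.sum_insert ha]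
    rw [e]
    exact h1.2.1 _ _ (h a) ih

/-- generator of a finite sum -/
theorem evj_gsum (h1 : RGCStmt E) (U : E → ℝ) {ι : Type} [Fintype ι]
    (b : OrthonormalBasis ι ℝ E) {κ : Type} (S : Finset κ) {F : κ → ℝ → E → ℝ}
    (h : ∀ k, RG (F k)) {s : ℝ} (hs : 0 < s) (θ : E) :
    gen b U (fun s θ => ∑ k ∈ S, F k s θ) s θ = ∑ k ∈ S, gen b U (F k) s θ := by
  classical
  induction S using Finset.induction_on with
  | empty =>
    simp only [Finset.sum_empty]
    unfold gen D
    simp
  | insert a S ha ih =>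
    have e : (fun s θ => ∑ k ∈ insert a S, F k s θ) = fun s θ => F a s θ + ∑ k ∈ S, F k s θ := by
      funext s θ
      rw [Finset.sum_insert ha]
    rw [e, Finset.sum_insert ha, ← ih]
    exact (h1.2.2.2.2.1 _ _ U (h a) (evj_sum h1 S h) ι b s θ hs).1

/-- the Dirichlet form as a combination of means -/
theorem evj_wd {U : E → ℝ} {t : ℝ} (hU : PP U t) {ι : Type} [Fintype ι] [DecidableEq ι]
    (b : OrthonormalBasis ι ℝ E) (M : Matrix ι ι ℝ) {u : E → ℝ} (hu : Tst u) :
    WD b M U u = ∑ i, ∑ j, M i j * ∫ x, D (b i) u x * D (b j) u x ∂(mu U) := by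
  have : IsProbabilityMeasure (mu U) := hU.2
  have hint : ∀ i j, Integrable (fun x => D (b i) u x * D (b j) u x) (mu U) := by
    intro i j
    have hc := (evj_Dc hu (b i)).1.mul (evj_Dc hu (b j)).1
    have hs : HasCompactSupport (fun x => D (b i) u x * D (b j) u x) :=
      (evj_Dc hu (b i)).2.mul_right
    exact hc.integrable_of_hasCompactSupport hs
  have key : ∀ m : ι → ι → ℝ, ∫ x, (∑ i, ∑ j, m i j * (D (b i) u x * D (b j) u x)) ∂(mu U) =
      ∑ i, ∑ j, m i j * ∫ x, D (b i) u x * D (b j) u x ∂(mu U) := by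
    intro m
    rw [integral_finsetSum _ fun i _ => integrable_finsetSum _ fun j _ =>
      (hint i j).const_mul (m i j)]
    refine Finset.sum_congr rfl fun i _ => ?_
    rw [integral_finsetSum _ fun j _ => (hint i j).const_mul (m i j)]
    refine Finset.sum_congr rfl fun j _ => ?_
    exact integral_const_mul _ _
  exact key fun i j => M i j

theorem evj_sym {ι : Type} [Fintype ι] (b : OrthonormalBasis ι ℝ E) (U : E → ℝ) (i j : ι) :
    cm b U i j = cm b U j i := by
  unfold cm Pool.Agent.H73.KG.cv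
  simp only [Matrix.of_apply]
  congr 1
  · exact integral_congr_ae (Eventually.of_forall fun x => mul_comm _ _)
  · exact mul_comm _ _

/-- the first term of the generator is not positive -/
theorem evj_pos {U : E → ℝ} {t : ℝ} (hU : PP U t) {ι : Type} [Fintype ι] [DecidableEq ι]
    (b : OrthonormalBasis ι ℝ E) {u : E → ℝ} (hu : Tst u) :
    0 ≤ ∑ i, ∑ j, (cm b U ^ 2) i j * ∫ x, D (b i) u x * D (b j) u x ∂(mu U) := by
  rw [← evj_wd hU b _ hu]
  unfold WD
  refine integral_nonneg fun x => ?_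
  have : ∑ i, ∑ j, (cm b U ^ 2) i j * (D (b i) u x * D (b j) u x) =
      ∑ k, (∑ i, cm b U i k * D (b i) u x) ^ 2 := by
    have e1 : ∀ i j, (cm b U ^ 2) i j * (D (b i) u x * D (b j) u x) =
        ∑ k, (cm b U i k * D (b i) u x) * (cm b U j k * D (b j) u x) := by
      intro i j
      rw [pow_two, Matrix.mul_apply, Finset.sum_mul]
      refine Finset.sum_congr rfl fun k _ => ?_
      rw [evj_sym b U k j]
      ring
    simp only [e1]
    have e2 : ∀ k, (∑ i, cm b U i k * D (b i) u x) ^ 2 =
        ∑ i, ∑ j, (cm b U i k * D (b i) u x) * (cm b U j k * D (b j) u x) := by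
      intro k
      rw [pow_two, Finset.sum_mul_sum]
    simp only [e2]
    have e3 : ∀ i, ∑ j, ∑ k, (cm b U i k * D (b i) u x) * (cm b U j k * D (b j) u x) =
        ∑ k, ∑ j, (cm b U i k * D (b i) u x) * (cm b U j k * D (b j) u x) := fun i =>
      Finset.sum_comm
    rw [Finset.sum_congr rfl fun i _ => e3 i]
    exact Finset.sum_comm
  rw [this]
  exact Finset.sum_nonneg fun k _ => sq_nonneg _

/-- module EVJ -/
theorem evj_thm (hPWB : PWBStmt E) (hRGC : RGCStmt E) (hRGP : RGPStmt E) (hBAY : BAYStmt E)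
    (hDYN : DYNStmt E) (hAAG : AAGStmt E) : EVJStmt E := by
  intro U t hU ι _ _ b u s β hu hs hβ
  set F : ι → ι → E → ℝ := fun i j x => D (b i) u x * D (b j) u x with hF
  have hFG : ∀ i j, GC (F i j) := fun i j => evj_DD hu (b i) (b j)
  set P : ι → ι → ℝ → E → ℝ := fun i j r θ => pm U r θ (F i j) with hP
  set A : ι → ι → ℝ → E → ℝ := fun i j r θ => cm b (pw U r θ) i j with hA
  have hPr : ∀ i j, RG (P i j) := fun i j => (hRGP U t hU (F i j) (hFG i j)).1
  have hAr : ∀ i j, RG (A i j) := fun i j => (hAAG U t hU ι b i j).1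
  have hAP : ∀ i j, RG (fun r θ => A i j r θ * P i j r θ) := fun i j =>
    hRGC.2.2.1 _ _ (hAr i j) (hPr i j)
  have hrow : ∀ i, RG (fun r θ => ∑ j, A i j r θ * P i j r θ) := fun i =>
    evj_sum hRGC Finset.univ fun j => hAP i j
  set G : ℝ → E → ℝ := fun r θ => ∑ i, ∑ j, A i j r θ * P i j r θ with hG
  have hGr : RG G := evj_sum hRGC Finset.univ fun i => hrow i
  -- the function `G` is the Dirichlet form
  have hGW : ∀ r θ, 0 ≤ r → WD b (cm b (pw U r θ)) (pw U r θ) u = G r θ := by
    intro r θ hr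
    obtain ⟨h1, h2, -⟩ := hPWB U t hU
    rw [evj_wd (h1 r θ hr) b _ hu]
    refine Finset.sum_congr rfl fun i _ => Finset.sum_congr rfl fun j _ => ?_
    rw [h2 r θ hr]
  -- the generator
  have hgen : ∀ r θ, 0 < r → gen b U G r θ =
      -(∑ i, ∑ j, (cm b (pw U r θ) ^ 2) i j *
        ∫ x, D (b i) u x * D (b j) u x ∂(mu (pw U r θ))) + TC b (pw U r θ) (pw U r θ) u := by
    intro r θ hr
    obtain ⟨-, h2, -⟩ := hPWB U t hU
    have e1 : gen b U G r θ = ∑ i, ∑ j, (A i j r θ * gen b U (P i j) r θ +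
        P i j r θ * gen b U (A i j) r θ +
        ∑ k, D (b k) (A i j r) θ * D (b k) (P i j r) θ) := by
      rw [hG, evj_gsum hRGC U b Finset.univ (fun i => hrow i) hr θ]
      refine Finset.sum_congr rfl fun i _ => ?_
      rw [evj_gsum hRGC U b Finset.univ (fun j => hAP i j) hr θ]
      refine Finset.sum_congr rfl fun j _ => ?_
      exact (hRGC.2.2.2.2.1 _ _ U (hAr i j) (hPr i j) ι b r θ hr).2
    have e2 : ∀ i j, (A i j r θ * gen b U (P i j) r θ +
        P i j r θ * gen b U (A i j) r θ +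
        ∑ k, D (b k) (A i j r) θ * D (b k) (P i j r) θ) =
        -((cm b (pw U r θ) ^ 2) i j *
          ∫ x, D (b i) u x * D (b j) u x ∂(mu (pw U r θ))) +
        ∑ k, t3 (pw U r θ) (b k) (b i) (b j) *
          Pool.Agent.H73.KG.cv (pw U r θ) (li (b k)) (fun x => D (b i) u x * D (b j) u x) := by
      intro i j
      have g1 : gen b U (P i j) r θ = 0 := (hRGP U t hU (F i j) (hFG i j)).2.2 ι b r θ hr
      have g2 : gen b U (A i j) r θ = -((cm b (pw U r θ)) ^ 2) i j :=
        (hAAG U t hU ι b i j).2.1 r θ hr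
      have g3 : ∀ k, D (b k) (A i j r) θ = t3 (pw U r θ) (b k) (b i) (b j) := fun k =>
        (hAAG U t hU ι b i j).2.2 r θ (b k) hr.le
      have g4 : ∀ k, D (b k) (P i j r) θ =
          Pool.Agent.H73.KG.cv (pw U r θ) (li (b k)) (fun x => D (b i) u x * D (b j) u x) := by
        intro k
        have := ((hRGP U t hU (F i j) (hFG i j)).2.1 r θ (b k) hr.le).2
        have e : D (b k) (P i j r) θ = Pool.Agent.H73.KG.cv (pw U r θ) (F i j) (li (b k)) := this
        rw [e]
        unfold Pool.Agent.H73.KG.cv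
        congr 1
        · exact integral_congr_ae (Eventually.of_forall fun x => mul_comm _ _)
        · exact mul_comm _ _
      rw [g1, g2]
      have g5 : P i j r θ = ∫ x, D (b i) u x * D (b j) u x ∂(mu (pw U r θ)) :=
        (h2 r θ hr.le (F i j)).symm
      rw [g5]
      simp only [g3, g4]
      ring
    rw [e1]
    simp only [e2]
    simp only [Finset.sum_add_distrib, Finset.sum_neg_distrib]
    congr 1
    unfold TC
    have e3 : ∀ i, ∑ j, ∑ k, t3 (pw U r θ) (b k) (b i) (b j) *
        Pool.Agent.H73.KG.cv (pw U r θ) (li (b k)) (fun x => D (b i) u x * D (b j) u x) =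
        ∑ k, ∑ j, t3 (pw U r θ) (b k) (b i) (b j) *
        Pool.Agent.H73.KG.cv (pw U r θ) (li (b k)) (fun x => D (b i) u x * D (b j) u x) :=
      fun i => Finset.sum_comm
    rw [Finset.sum_congr rfl fun i _ => e3 i]
    exact Finset.sum_comm
  -- the derivative along the channel
  obtain ⟨hder, hcont, h0⟩ := hDYN U t hU G hGr
  have hle : ∀ r ∈ Ioo 0 s, EX U r (gen b U G r) ≤ β := by
    intro r hr
    obtain ⟨-, -, -, -, hmono, -, -⟩ := hBAY U t hU r hr.1.le
    have hTC : GC (fun θ => TC b (pw U r θ) (pw U r θ) u) := by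
      have e : (fun θ => TC b (pw U r θ) (pw U r θ) u) =
          fun θ => ∑ k, ∑ i, ∑ j, D (b k) (A i j r) θ * D (b k) (P i j r) θ := by
        funext θ
        unfold TC
        refine Finset.sum_congr rfl fun k _ => Finset.sum_congr rfl fun i _ =>
          Finset.sum_congr rfl fun j _ => ?_
        have g3 : D (b k) (A i j r) θ = t3 (pw U r θ) (b k) (b i) (b j) :=
          (hAAG U t hU ι b i j).2.2 r θ (b k) hr.1.le
        have g4 : D (b k) (P i j r) θ = Pool.Agent.H73.KG.cv (pw U r θ) (F i j) (li (b k)) :=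
          ((hRGP U t hU (F i j) (hFG i j)).2.1 r θ (b k) hr.1.le).2
        rw [g3, g4]
        congr 1
        unfold Pool.Agent.H73.KG.cv
        congr 1
        · exact integral_congr_ae (Eventually.of_forall fun x => mul_comm _ _)
        · exact mul_comm _ _
      rw [e]
      exact GC.sum (s := Finset.univ)
        (F := fun k θ => ∑ i, ∑ j, D (b k) (A i j r) θ * D (b k) (P i j r) θ) fun k =>
        GC.sum (s := Finset.univ)
          (F := fun i θ => ∑ j, D (b k) (A i j r) θ * D (b k) (P i j r) θ) fun i =>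
          GC.sum (s := Finset.univ)
            (F := fun j θ => D (b k) (A i j r) θ * D (b k) (P i j r) θ) fun j =>
            GC.mul (evj_D hRGC (hAr i j) hr.1 (b k)) (evj_D hRGC (hPr i j) hr.1 (b k))
    refine le_trans (hmono _ _ (trp_gen hRGC hRGP hU hGr hr.1 b) hTC fun θ => ?_) (hβ r hr)
    rw [hgen r θ hr.1]
    have := evj_pos ((hPWB U t hU).1 r θ hr.1.le) b hu
    linarith
  have hsub : Icc (0:ℝ) s ⊆ Ici 0 := fun x hx => hx.1
  obtain ⟨c, hc, hc2⟩ := exists_hasDerivAt_eq_slope (fun r => EX U r (G r))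
    (fun r => EX U r (gen b U G r)) hs (hcont.mono hsub) fun r hr => hder ι b r hr.1
  have h1 := hle c hc
  rw [hc2, sub_zero, div_le_iff₀ hs] at h1
  have h2 : EX U 0 (G 0) = WD b (cm b U) U u := by
    rw [h0, ← hGW 0 0 le_rfl, (hPWB U t hU).2.2]
  have h3 : EX U s (fun θ => WD b (cm b (pw U s θ)) (pw U s θ) u) = EX U s (G s) := by
    congr 1
    funext θ
    exact hGW s θ hs.le
  rw [h3]
  have h4 : EX U s (G s) - EX U 0 (G 0) ≤ β * s := h1
  rw [h2] at h4
  linarith

end Pool.Agent.H59.KP
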