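import Pool.Agent.H59.KP.EVJ

/-!
# Project KP, modules EVV, M4, MQB
-/

set_option autoImplicit false

open MeasureTheory Set Filter Topology
open scoped ContDiff

namespace Pool.Agent.H59.KP

open Pool.Agent.H84 hiding cv mn
open Pool.Agent.H84.Sym Pool.Agent.H84.Sym.P2x Pool.Agent.H19.KL
open Pool.Agent.H73.KG Pool.Agent.H20.KH Pool.Agent.H78.KP Pool.Agent.H59.KG

variable {E : Type} [NormedAddCommGroup E] [InnerProductSpace ℝ E]
    [FiniteDimensional ℝ E] [MeasurableSpace E] [BorelSpace E]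

/-- module EVV -/
theorem evv_thm (hCOV : COVStmt E) : EVVStmt E := by
  intro U t hU ι _ b u s β hu hs hβ
  have hGu : GC u := evj_cs hu.1.continuous hu.2
  obtain ⟨hint, heq⟩ := hCOV U t hU u u hGu hGu ι b s hs
  have h1 : (∫ r in (0:ℝ)..s, EX U r (fun θ => ∑ i, cv (pw U r θ) u (li (b i)) *
      cv (pw U r θ) u (li (b i)))) ≤ ∫ _ in (0:ℝ)..s, β := by
    refine intervalIntegral.integral_mono_on_of_le_Ioo hs.le hint
      intervalIntegrable_const fun r hr => ?_
    have := hβ r hr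
    simpa only [pow_two] using this
  rw [intervalIntegral.integral_const, sub_zero, smul_eq_mul] at h1
  linarith

omit [FiniteDimensional ℝ E] [MeasurableSpace E] [BorelSpace E] in
theorem m4_gc (e : E) (c : ℝ) : GC (fun x => li e x - c) := by
  have := GC.add (trp_li e) (GC.const (-c))
  simpa [sub_eq_add_neg] using this

/-- the covariance as the mean of the product of centred functions -/
theorem m4_cov (hBAS : BASStmt E) {U : E → ℝ} {t : ℝ} (hU : PP U t) (e e' : E) :
    cv U (li e) (li e') = ∫ x, (li e x - mn U e) * (li e' x - mn U e') ∂(mu U) :=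
  (hBAS.2.2.2.1 U t hU (li e) (li e') (trp_li e) (trp_li e')).2.2.2

omit [FiniteDimensional ℝ E] [MeasurableSpace E] [BorelSpace E] in
theorem m4_fd (e : E) (c : ℝ) (x : E) :
    HasFDerivAt (fun x => (li e x - c) ^ 2) ((2 * (li e x - c)) • innerSL ℝ e) x := by
  have h1 : HasFDerivAt (fun x => li e x - c) (innerSL ℝ e) x :=
    ((innerSL ℝ e).hasFDerivAt (x := x)).sub_const c
  have h2 := h1.pow 2
  refine h2.congr_fderiv ?_
  ext v
  simp

theorem m4_thm (hBAS : BASStmt E) : M4Stmt E := by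
  intro U t hU e he
  obtain ⟨C, hC⟩ := hU.1
  have ht : 0 < t := hC.pos
  have : IsProbabilityMeasure (mu U) := hU.2
  have h1 : ∫ x, (li e x - mn U e) ^ 2 ∂(mu U) ≤ 1 / t := by
    have h2 : ∫ x, (li e x - mn U e) ^ 2 ∂(mu U) = cv U (li e) (li e) := by
      rw [m4_cov hBAS hU e e]
      exact integral_congr_ae (Eventually.of_forall fun x => pow_two _)
    rw [h2]
    have := hBAS.2.2.2.2.1 U t hU e
    rwa [he, one_pow, mul_one] at this
  refine ⟨h1, ?_⟩
  set m := mn U e with hm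
  set f : E → ℝ := fun x => (li e x - m) ^ 2 with hf
  have hg1 : GC (fun x => li e x - m) := m4_gc e m
  have hfG : GC f := by
    have := GC.mul hg1 hg1
    simpa only [hf, pow_two] using this
  have hfd : ∀ x, fderiv ℝ f x = (2 * (li e x - m)) • innerSL ℝ e := fun x =>
    (m4_fd e m x).fderiv
  have hnorm : ∀ x, ‖fderiv ℝ f x‖ = |2 * (li e x - m)| := by
    intro x
    rw [hfd, norm_smul, innerSL_apply_norm, he, mul_one, Real.norm_eq_abs]
  have hf1 : ContDiff ℝ 1 f := by
    have : ContDiff ℝ 1 (fun x => li e x) := contDiff_const.inner ℝ contDiff_id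
    exact (this.sub contDiff_const).pow 2
  have hgr : Gr (fun x => ‖fderiv ℝ f x‖) := by
    refine Gr.of_le (G := fun x => 2 * (li e x - m)) (GC.mul (GC.const 2) hg1).2 fun x => ?_
    rw [hnorm, abs_abs]
  have h3 := hBAS.2.2.1 U t hU f hf1 hfG.2 hgr (1 / t) (hBAS.2.1 U t hU)
  have h4 : ∫ x, ‖fderiv ℝ f x‖ ^ 2 ∂(mu U) = 4 * ∫ x, (li e x - m) ^ 2 ∂(mu U) := by
    rw [← integral_const_mul]
    refine integral_congr_ae (Eventually.of_forall fun x => ?_)
    simp only
    rw [hnorm, sq_abs]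
    ring
  rw [h4] at h3
  have h5 : ∫ x, (li e x - m) ^ 4 ∂(mu U) = cv U f f + (∫ x, f x ∂(mu U)) ^ 2 := by
    unfold cv
    have : ∫ x, (li e x - m) ^ 4 ∂(mu U) = ∫ x, f x * f x ∂(mu U) := by
      refine integral_congr_ae (Eventually.of_forall fun x => ?_)
      simp only [hf]
      ring
    rw [this]
    ring
  rw [h5]
  have h6 : 0 ≤ ∫ x, f x ∂(mu U) := integral_nonneg fun x => sq_nonneg _
  have h7 : (∫ x, f x ∂(mu U)) ^ 2 ≤ (1 / t) ^ 2 := pow_le_pow_left₀ h6 h1 2
  have h8 : 1 / t * (4 * ∫ x, (li e x - m) ^ 2 ∂(mu U)) ≤ 1 / t * (4 * (1 / t)) := by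
    have : 0 < 1 / t := by positivity
    have h9 : ∫ x, (li e x - m) ^ 2 ∂(mu U) ≤ 1 / t := h1
    nlinarith
  have h9 : 5 / t ^ 2 = 1 / t * (4 * (1 / t)) + (1 / t) ^ 2 := by
    field_simp
    norm_num
  rw [h9]
  linarith

/-- mean of a product against the means of the squares -/
theorem mqb_cs {U : E → ℝ} {t : ℝ} (hU : PP U t) {f g : E → ℝ} (hf : GC f)
    (hg : GC g) : (∫ x, f x * g x ∂(mu U)) ^ 2 ≤
      (∫ x, f x ^ 2 ∂(mu U)) * ∫ x, g x ^ 2 ∂(mu U) := by
  obtain ⟨C, hC⟩ := hU.1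
  have i1 : Integrable (fun x => f x ^ 2) (mu U) := by
    have := (GC.mul hf hf).integrable hC
    simpa only [pow_two] using this
  have i2 : Integrable (fun x => g x ^ 2) (mu U) := by
    have := (GC.mul hg hg).integrable hC
    simpa only [pow_two] using this
  have i3 : Integrable (fun x => f x * g x) (mu U) := (GC.mul hf hg).integrable hC
  have key : ∀ y : ℝ, 0 ≤ (∫ x, f x ^ 2 ∂(mu U)) * (y * y) + (2 * ∫ x, f x * g x ∂(mu U)) * y +
      ∫ x, g x ^ 2 ∂(mu U) := by
    intro y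
    have h1 : ∫ x, (f x * y + g x) ^ 2 ∂(mu U) = (∫ x, f x ^ 2 ∂(mu U)) * (y * y) +
        (2 * ∫ x, f x * g x ∂(mu U)) * y + ∫ x, g x ^ 2 ∂(mu U) := by
      have e : ∀ x, (f x * y + g x) ^ 2 = f x ^ 2 * (y * y) + (f x * g x) * (2 * y) + g x ^ 2 :=
        fun x => by ring
      simp only [e]
      have j1 : Integrable (fun x => f x ^ 2 * (y * y)) (mu U) := i1.mul_const _
      have j3 : Integrable (fun x => f x * g x * (2 * y)) (mu U) := i3.mul_const _
      have j4 : Integrable (fun x => f x ^ 2 * (y * y) + f x * g x * (2 * y)) (mu U) := j1.add j3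
      rw [integral_add j4 i2, integral_add j1 j3, integral_mul_const, integral_mul_const]
      ring
    rw [← h1]
    exact integral_nonneg fun x => sq_nonneg _
  have h2 := discrim_le_zero key
  unfold discrim at h2
  nlinarith

theorem mqb_thm (hBAS : BASStmt E) : MQBStmt E := by
  intro U t hU ι _ b i j k
  obtain ⟨C, hC⟩ := hU.1
  have ht : 0 < t := hC.pos
  have hM4 := m4_thm hBAS U t hU
  have hn : ∀ l, ‖b l‖ = 1 := fun l => b.orthonormal.1 l
  have hc : ∀ l, GC (fun x => li (b l) x - mn U (b l)) := fun l => m4_gc _ _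
  have h22 : ∀ l m, ∫ x, ((li (b l) x - mn U (b l)) * (li (b m) x - mn U (b m))) ^ 2 ∂(mu U) ≤
      5 / t ^ 2 := by
    intro l m
    have e1 := mqb_cs hU (GC.mul (hc l) (hc l)) (GC.mul (hc m) (hc m))
    have e2 : ∀ l, ∫ x, ((li (b l) x - mn U (b l)) * (li (b l) x - mn U (b l))) ^ 2 ∂(mu U) ≤
        5 / t ^ 2 := by
      intro l
      have := (hM4 (b l) (hn l)).2
      refine le_trans (le_of_eq ?_) this
      exact integral_congr_ae (Eventually.of_forall fun x => by ring)
    have e3 : 0 ≤ ∫ x, ((li (b m) x - mn U (b m)) * (li (b m) x - mn U (b m))) ^ 2 ∂(mu U) :=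
      integral_nonneg fun x => sq_nonneg _
    have e4 : ∫ x, ((li (b l) x - mn U (b l)) * (li (b m) x - mn U (b m))) ^ 2 ∂(mu U) =
        ∫ x, ((li (b l) x - mn U (b l)) * (li (b l) x - mn U (b l))) *
          ((li (b m) x - mn U (b m)) * (li (b m) x - mn U (b m))) ∂(mu U) :=
      integral_congr_ae (Eventually.of_forall fun x => by ring)
    have e5 : (∫ x, ((li (b l) x - mn U (b l)) * (li (b l) x - mn U (b l))) *
          ((li (b m) x - mn U (b m)) * (li (b m) x - mn U (b m))) ∂(mu U)) ^ 2 ≤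
          (5 / t ^ 2) ^ 2 := by
      refine e1.trans ?_
      rw [pow_two (5 / t ^ 2)]
      exact mul_le_mul (e2 l) (e2 m) e3 (by positivity)
    rw [e4]
    exact le_of_abs_le (abs_le_of_sq_le_sq e5 (by positivity))
  refine ⟨?_, ?_, ?_⟩
  · have e1 := (hBAS.2.2.2.1 U t hU (li (b i)) (li (b j)) (trp_li _) (trp_li _)).1
    have e2 : ∀ l, cv U (li (b l)) (li (b l)) ≤ 1 / t := by
      intro l
      have := hBAS.2.2.2.2.1 U t hU (b l)
      rwa [hn, one_pow, mul_one] at this
    have e3 : 0 ≤ cv U (li (b j)) (li (b j)) :=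
      (hBAS.2.2.2.1 U t hU (li (b j)) (li (b j)) (trp_li _) (trp_li _)).2.1
    have e4 : cv U (li (b i)) (li (b j)) ^ 2 ≤ (1 / t) ^ 2 := by
      refine e1.trans ?_
      rw [pow_two (1 / t)]
      exact mul_le_mul (e2 i) (e2 j) e3 (by positivity)
    exact abs_le_of_sq_le_sq e4 (by positivity)
  · have e1 := mqb_cs hU (hc k) (GC.mul (hc i) (hc j))
    have e2 : t3 U (b k) (b i) (b j) = ∫ x, (li (b k) x - mn U (b k)) *
        ((li (b i) x - mn U (b i)) * (li (b j) x - mn U (b j))) ∂(mu U) := by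
      unfold t3
      exact integral_congr_ae (Eventually.of_forall fun x => by ring)
    rw [e2]
    refine e1.trans ?_
    have e3 : 5 / t ^ 3 = 1 / t * (5 / t ^ 2) := by
      field_simp
    rw [e3]
    exact mul_le_mul (hM4 (b k) (hn k)).1 (h22 i j) (integral_nonneg fun x => sq_nonneg _)
      (by positivity)
  · intro f hf
    set g : E → ℝ := fun x => (li (b i) x - mn U (b i)) * (li (b j) x - mn U (b j)) with hg
    have hgG : GC g := GC.mul (hc i) (hc j)
    have e1 := (hBAS.2.2.2.1 U t hU f g hf hgG)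
    have e2 : cv U g g ≤ 5 / t ^ 2 := by
      unfold cv
      have : ∫ x, g x * g x ∂(mu U) ≤ 5 / t ^ 2 := by
        have := h22 i j
        refine le_trans (le_of_eq ?_) this
        exact integral_congr_ae (Eventually.of_forall fun x => by simp only [hg]; ring)
      nlinarith [sq_nonneg (∫ x, g x ∂(mu U))]
    have e3 := e1.2.1
    refine e1.1.trans ?_
    rw [mul_comm (5 / t ^ 2)]
    exact mul_le_mul_of_nonneg_left e2 e3

end Pool.Agent.H59.KP
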